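import Pool.Agent.H49.KT.UTargets

set_option autoImplicit false

namespace Pool.Agent.H19.KT

open Turing Function
open Pool.Agent.H49.KT Pool.Agent.H49.KT.Uni

theorem wf_istep : WF istep := by
  simp [WF, Free, istep, pass1, pass2, pass3, pass4, body1, body2, body3, body4, Uni.lp, Uni.mv,
    Uni.skip, pushr, pusht, popg, smode]

theorem wf_peekg (y : Nw) : WF (peekg y) := trivial

theorem isSome_us (q : ℕ) : (us q).head?.isSome = decide (q ≠ 0) := by
  cases q with
  | zero => rfl
  | succ n => simp [us, List.replicate_succ]

theorem loopRun (h : T_IS) (u : IO → List Bool) (B : List Blk) (L' : List (List ℕ)) :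
    ∀ (T q : ℕ) (L : List (List ℕ)) (v : Me) (z : Nw → List Tok), TSteps B T q L 0 L' → Em z →
      z .prg = encP B → z .cfg = encC L → z .q = us q → v.g = decide (q ≠ 0) →
      (∃ v' N, Kp v v' ∧ Run (.wh (fun v => v.g) (.seq istep (peekg .q))) (mk2 v u z)
        (mk2 v' u (update (update z .cfg (encC L')) .q [])) N ∧
        N ≤ T * (200 * ((encP B).length + (encC L).length + T * (encP B).length + 1) + 2) + 1) ∧
      (encC L').length ≤ (encC L).length + T * (encP B).length := by
  intro T
  induction T with
  | zero =>
    intro q L v z hT hE hp hc hq hg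
    cases hT with
    | refl =>
      refine ⟨⟨v, 1, rfl, ?_, by omega⟩, by omega⟩
      have e : update (update z .cfg (encC L')) .q [] = z := by
        funext y
        by_cases h1 : y = .q
        · subst h1
          rw [update_self, hq]
          rfl
        · rw [update_of_ne h1]
          by_cases h2 : y = .cfg
          · subst h2
            rw [update_self, hc]
          · rw [update_of_ne h2]
      rw [e]
      apply Run.wh_false
      simp only [mk2_v]
      rw [hg]
      rfl
  | succ T ih =>
    intro q L v z hT hE hp hc hq hg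
    cases hT with
    | @step _ _ q1 _ _ L1 _ hq0 h1 h2 =>
      obtain ⟨⟨v1, hk1, hs1⟩, hl1⟩ := h v u z B q q1 L L1 h1 hE hp hc hq
      obtain ⟨N1, hN1, hr1⟩ := Spec.run2 wf_istep hs1
      set z1 : Nw → List Tok := update (update z .cfg (encC L1)) .q (us q1) with hz1
      have hs2 := sp_peekg v1 u z1 .q
      obtain ⟨N2, hN2, hr2⟩ := Spec.run2 (wf_peekg .q) hs2
      have hzq : z1 .q = us q1 := update_self _ _ _
      have hzc : z1 .cfg = encC L1 := by
        rw [hz1, update_of_ne (by decide), update_self]
      have hzo : ∀ y : Nw, y ≠ .q → y ≠ .cfg → z1 y = z y := by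
        intro y a1 a2
        rw [hz1, update_of_ne a1, update_of_ne a2]
      have hE1 : Em z1 := by
        obtain ⟨a1, a2, a3, a4, a5, a6, a7, a8⟩ := hE
        refine ⟨?_, ?_, ?_, ?_, ?_, ?_, ?_, ?_⟩
        · rw [hzo _ (by decide) (by decide)]; exact a1
        · rw [hzo _ (by decide) (by decide)]; exact a2
        · rw [hzo _ (by decide) (by decide)]; exact a3
        · rw [hzo _ (by decide) (by decide)]; exact a4
        · rw [hzo _ (by decide) (by decide)]; exact a5
        · rw [hzo _ (by decide) (by decide)]; exact a6
        · rw [hzo _ (by decide) (by decide)]; exact a7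
        · rw [hzo _ (by decide) (by decide)]; exact a8
      obtain ⟨⟨v2, N3, hk2, hr3, hN3⟩, hl2⟩ := ih q1 L1 (v1.sg (z1 .q).head?.isSome) z1 h2 hE1
        (by rw [hzo _ (by decide) (by decide)]; exact hp) hzc hzq
        (by rw [hzq, isSome_us]; rfl)
      have hzz : update (update z1 .cfg (encC L')) .q [] = update (update z .cfg (encC L')) .q [] := by
        funext y
        by_cases b1 : y = .q
        · subst b1; rw [update_self, update_self]
        · rw [update_of_ne b1, update_of_ne b1]
          by_cases b2 : y = .cfg
          · subst b2; rw [update_self, update_self]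
          · rw [update_of_ne b2, update_of_ne b2, hzo y b1 b2]
      rw [hzz] at hr3
      refine ⟨⟨v2, N1 + N2 + N3 + 1, ?_, Run.wh_true ?_ (Run.seq hr1 hr2) hr3, ?_⟩, ?_⟩
      · have a1 : v2.ng = v1.ng := hk2
        have a2 : v1.ng = v.ng := hk1
        exact a1.trans a2
      · simp only [mk2_v]
        rw [hg]
        simp [hq0]
      · have hmul : T * (200 * ((encP B).length + (encC L1).length + T * (encP B).length + 1) + 2) ≤
            T * (200 * ((encP B).length + (encC L).length + (T + 1) * (encP B).length + 1) + 2) := by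
          apply Nat.mul_le_mul_left
          have : (T + 1) * (encP B).length = T * (encP B).length + (encP B).length := by ring
          omega
        have e1 : (T + 1) * (200 * ((encP B).length + (encC L).length +
            (T + 1) * (encP B).length + 1) + 2) =
            T * (200 * ((encP B).length + (encC L).length + (T + 1) * (encP B).length + 1) + 2) +
            (200 * ((encP B).length + (encC L).length + (T + 1) * (encP B).length + 1) + 2) := by
          ring
        rw [e1]
        omega
      · have : (T + 1) * (encP B).length = T * (encP B).length + (encP B).length := by ring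
        omega

theorem bound (T P c N1 N3 : ℕ) (h1 : N1 ≤ 1)
    (h3 : N3 ≤ T * (200 * (P + c + T * P + 1) + 2) + 1) :
    N1 + N3 ≤ 1000 * ((T + 1) * (P * (T + 1) + c + 1)) := by
  have a1 : T * (200 * (P + c + T * P + 1) + 2) + 2 * (T + 1) ≤
      (T + 1) * (1000 * (P * (T + 1) + c + 1)) := by
    have b1 : (T + 1) * (1000 * (P * (T + 1) + c + 1)) =
        T * (1000 * (P * (T + 1) + c + 1)) + 1000 * (P * (T + 1) + c + 1) := by ring
    have b2 : T * (200 * (P + c + T * P + 1) + 2 + 2) ≤ T * (1000 * (P * (T + 1) + c + 1)) := by
      apply Nat.mul_le_mul_left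
      have b3 : P * (T + 1) = T * P + P := by ring
      rw [b3]
      omega
    have b4 : T * (200 * (P + c + T * P + 1) + 2 + 2) =
        T * (200 * (P + c + T * P + 1) + 2) + 2 * T := by ring
    rw [b1]
    omega
  have a2 : (T + 1) * (1000 * (P * (T + 1) + c + 1)) =
      1000 * ((T + 1) * (P * (T + 1) + c + 1)) := by ring
  omega

theorem pf_RUN : T_IS → T_RUN := by
  intro h v u z B q T L L' hT hE hp hc hq
  obtain ⟨N1, hN1, hr1⟩ := Spec.run2 (wf_peekg .q) (sp_peekg v u z .q)
  obtain ⟨⟨v2, N3, hk2, hr3, hN3⟩, hl2⟩ := loopRun h u B L' T q L (v.sg (z .q).head?.isSome) z hT hE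
    hp hc hq (by rw [hq, isSome_us]; rfl)
  refine ⟨⟨v2, N1 + N3, hk2, Run.seq hr1 hr3, ?_⟩, hl2⟩
  exact bound _ _ _ _ _ hN1 hN3

end Pool.Agent.H19.KT
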