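import Pool.Agent.H49.KT.UTargets

set_option autoImplicit false

namespace Pool.Agent.H19.KT

open Turing Function
open Pool.Agent.H49.KT Pool.Agent.H49.KT.Uni

variable {V : BM} (s : Sch V)

theorem ents_get (k : V.tm.K) (F : Option (V.tm.Γ k) → Ent) (l : List (V.tm.Γ k))
    (hl : ∀ g ∈ l, Sy V k g) :
    (s.ents k F)[entIx (l.map (s.cd k))]? = some (F l.head?) := by
  cases l with
  | nil => rfl
  | cons g l =>
    have hg : Sy V k g := hl g (by simp)
    have h1 : entIx ((g :: l).map (s.cd k)) = s.cd k g + 1 := rfl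
    rw [h1]
    unfold Sch.ents
    rw [List.getElem?_cons_succ, List.getElem?_map, List.getElem?_range (s.cd_lt k g hg)]
    have hex : ∃ g', Sy V k g' ∧ s.cd k g' = s.cd k g := ⟨g, hg, rfl⟩
    simp only [Option.map_some, List.head?_cons]
    rw [dif_pos hex, s.cd_inj k _ _ hex.choose_spec.1 hg hex.choose_spec.2]

theorem same_tail (k : V.tm.K) (l : List (V.tm.Γ k)) :
    s.same k l.head? ++ (l.map (s.cd k)).tail = l.map (s.cd k) := by
  cases l with
  | nil => rfl
  | cons g l => simp [Sch.same]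

theorem pf_ST1 : T_EN → T_ST1 := by
  intro hEN V s S hV
  obtain ⟨h1, h2, _, _⟩ := hEN V s S
  refine ⟨0, s.ents V.tm.k₁ (fun o => (s.same _ o, s.st (V.tm.m V.tm.main) V.tm.initialState)),
    (S V.tm.k₁).map (s.cd V.tm.k₁), s.same V.tm.k₁ (S V.tm.k₁).head?, ?_, ?_, ?_, ?_⟩
  · unfold Sch.tbl
    rw [List.getElem?_map, List.getElem?_range (by omega)]
    simp [Sch.blk]
  · have := h1 V.tm.k₁
    rw [s.e_k₁] at this
    exact this
  · rw [ents_get s V.tm.k₁ _ (S V.tm.k₁) (hV V.tm.k₁)]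
  · rw [same_tail]
    have h3 := h2 V.tm.k₁ (S V.tm.k₁)
    rw [s.e_k₁] at h3
    rw [@update_eq_self _ _ V.tm.kDecidableEq V.tm.k₁ S] at h3
    exact h3.symm

end Pool.Agent.H19.KT
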