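import Pool.Agent.H49.KT.UTargets

set_option autoImplicit false

namespace Pool.Agent.H19.KT

open Turing Function
open Pool.Agent.H49.KT Pool.Agent.H49.KT.Uni

theorem vl_ini (V : BM) (d : List Bool) : Vl V (ini V d).stk := by
  intro k g hg
  by_cases hk : k = V.tm.k₀
  · exact Or.inl hk
  · exfalso
    have : (ini V d).stk k = [] := by
      simp only [ini]
      rw [update_of_ne hk]
    rw [this] at hg
    simp at hg

theorem pf_TAB : H49.KT.T_OUT → T_SCH → T_EN → T_ST1 → T_AUX → T_TAB := by
  intro hO hS hE h1 hA V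
  obtain ⟨s⟩ := hS V
  obtain ⟨D, hD⟩ := hA V s
  obtain ⟨_, hO⟩ := hO V
  obtain ⟨j, k, hjk⟩ := (hE V s (fun _ => [])).2.2.2
  refine ⟨s.tbl, j, k, s.ng, D + 1, ?_⟩
  intro d x t hx
  obtain ⟨T, hTt, hnone, hsome, hraw, _⟩ := hO d x t hx
  have hsucc : ∀ i, at' V (i + 1) d = fs V (at' V i d) := fun i => by
    simp only [at']
    rw [iterate_succ_apply']
  have hvl : ∀ i ≤ T, Vl V (at' V i d).stk := by
    intro i
    induction i with
    | zero => intro _; exact vl_ini V d
    | succ i ih =>
      intro hi
      have h3 := ih (by omega)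
      have h4 := hsome i (by omega)
      rw [hsucc i]
      generalize at' V i d = c at *
      obtain ⟨l, a, S⟩ := c
      cases l with
      | none => exact absurd rfl h4
      | some l => exact (hD l a S h3).1
  have hback : ∀ m ≤ T, ∃ T' ≤ D * m, TSteps s.tbl T' (s.sc (at' V (T - m) d))
      (s.enc (at' V (T - m) d).stk) 0 (s.enc (at' V T d).stk) := by
    intro m
    induction m with
    | zero =>
      intro _
      refine ⟨0, by omega, ?_⟩
      have : s.sc (at' V T d) = 0 := by
        unfold Sch.sc
        rw [hnone]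
      rw [Nat.sub_zero, this]
      exact TSteps.refl _ _
    | succ m ih =>
      intro hm
      obtain ⟨T', hT', hst⟩ := ih (by omega)
      have h3 := hvl (T - (m + 1)) (by omega)
      have h4 := hsome (T - (m + 1)) (by omega)
      have h5 : T - m = T - (m + 1) + 1 := by omega
      rw [h5, hsucc] at hst
      generalize at' V (T - (m + 1)) d = c at *
      obtain ⟨l, a, S⟩ := c
      cases l with
      | none => exact absurd rfl h4
      | some l =>
        obtain ⟨_, T1, hT1, hstep⟩ := hD l a S h3
        refine ⟨T1 + T', ?_, hstep T' _ hst⟩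
        have : D * (m + 1) = D * m + D := by ring
        omega
  obtain ⟨T', hT', hst⟩ := hback T le_rfl
  rw [Nat.sub_self] at hst
  have e0 : at' V 0 d = ini V d := rfl
  rw [e0] at hst
  have e1 : s.sc (ini V d) = s.st (V.tm.m V.tm.main) V.tm.initialState := rfl
  have e2 : s.enc (ini V d).stk = L₀ j k d := hjk d
  have h6 := h1 V s (ini V d).stk (vl_ini V d)
  have h7 : TSteps s.tbl (T' + 1) 1 (s.enc (ini V d).stk) 0 (s.enc (at' V T d).stk) :=
    TSteps.step (by omega) h6 (e1 ▸ hst)
  rw [e2] at h7
  obtain ⟨L, hL⟩ := (hE V s (at' V T d).stk).2.2.1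
  rw [hL] at h7
  refine ⟨T' + 1, _, L, ?_, h7, ?_⟩
  · have a1 : D * T ≤ D * t := Nat.mul_le_mul_left _ hTt
    have a2 : (D + 1) * (t + 1) = D * t + D + t + 1 := by ring
    omega
  · rw [← hraw]
    unfold rawOut
    rw [List.map_map]
    apply List.map_congr_left
    intro g _
    exact (s.cd_out g).symm

end Pool.Agent.H19.KT
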